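import Pool.Agent.W550.Bloch.Self

/-!
# Bloch's conjecture for self-correspondences of surfaces: equivalent special cases

`C` are the Chow groups (with rational coefficients), `H` is a Weil cohomology theory with the
subspaces `H^(2,0)(X)` for surfaces `X`.
-/

open CategoryTheory AlgebraicGeometry

universe u v w

namespace Pool.Agent.Results.MP_31564d_ag.SymmetricOrCommuting

open Pool.Agent.H914 Pool.Agent.H914.VarClass Pool.Agent.H914.VarClass.Obj Pool.Agent.W492.BB
  Pool.Agent.W550.Corr Pool.Agent.W550.Murre Pool.Agent.W550.Bloch

variable {k : Type u} [Field k] {𝒱 : VarClass k} {C : TheoryData.{u, v, 0} 𝒱 ℚ} {K : Type w}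
  [Field K]

theorem result (H : WeilTheoryData.{u, v, w} C K) [IsChow C] [IsWeil H] (hS : IsStandard H)
    (hd : HodgeSelf H) :
    -- let `V` be a surface which dominates a complete intersection of two divisors in a class
    -- `p^* h + q^* h'` on `X × X`: if the homologically trivial correspondences from `V` to `V`
    -- which are symmetric (or: which are antisymmetric) are zero on the Albanese kernel, or if
    -- all homologically trivial correspondences commute there with the correspondences
    -- `e^* e_*`, then Bloch's conjecture holds for `X`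
    (∀ X V : 𝒱.Obj, X.dim = 2 → OverBox C X X V →
      SignedFor H 1 V ∨ SignedFor H (-1) V ∨ CommuteFor H V → BlochSelf H hd X) ∧
    -- hence, for every class `𝒲` of surfaces which dominate all surfaces, Bloch's conjecture for
    -- all surfaces is equivalent to each of the following statements
    (HasBoxes C → ∀ 𝒲 : Set 𝒱.Obj, DominatesAll C 𝒲 →
      [BlochAll H hd, TrivialAll H, SignedOn H 1 𝒲, SignedOn H (-1) 𝒲, CommuteOn H 𝒲].TFAE) := by
  have hI : HasIso C := hasIso_of_std H hS
  refine ⟨fun X V hX hV hor => ?_, fun hB 𝒲 h𝒲 => self_tfae hS hB hd 𝒲 h𝒲⟩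
  obtain ⟨hVd, W, f, g, h, h', hb, hdom⟩ := hV
  rw [blochSelf_iff hS hd hX]
  rcases hor with h1 | h1 | h1
  · exact trivial_of_signed hX hX hb hVd hdom (by norm_num) h1
  · exact trivial_of_signed hX hX hb hVd hdom (by norm_num) h1
  · exact trivial_of_commute hX hX hb hVd hdom h1

end Pool.Agent.Results.MP_31564d_ag.SymmetricOrCommuting
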